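import Pool.Agent.Q226.FLT.Defs
import Pool.Agent.Y630.TF.Transfer

/-! Circuits on literals that tolerate faults give circuits without negations. -/

set_option autoImplicit false

open Finset

namespace Pool.Agent.Q226.FLT

open Pool.Agent.Y630.TF Pool.Agent.Y630.NW H630VC

lemma lit_eq {E : Type} (x : E → Bool) (Z : Set E) : lit x Z = literals x Z := by
  funext p
  unfold lit literals
  by_cases hp : p.2 = true
  · rw [if_pos hp, if_pos hp]
  · rw [if_neg hp, if_neg hp]
    by_cases hZ : p.1 ∈ Z
    · simp [hZ]
    · simp [hZ]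

/-- gates are monotone in the literals -/
lemma prog_mono {E : Type} {l : List ((E × Bool → Bool) → ℝ)} (h : Prog (litInputs E) l) :
    ∀ f ∈ l, ∀ y y' : E × Bool → Bool, y ≤ y' → f y ≤ f y' := by
  induction h with
  | nil => intro f hf; exact absurd hf (by simp)
  | input _ hf ih =>
    intro f' hf' y y' hy
    rcases List.mem_cons.mp hf' with rfl | hf'
    · rcases hf with ⟨p, rfl⟩ | ⟨c, rfl⟩
      · have h1 := hy p
        show (if y p = true then (1 : ℝ) else 0) ≤ if y' p = true then 1 else 0
        by_cases h2 : y p = true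
        · have h3 : y' p = true := by
            have := h1
            rw [h2] at this
            exact Bool.eq_true_of_true_le this
          rw [if_pos h2, if_pos h3]
        · rw [if_neg h2]
          by_cases h3 : y' p = true
          · rw [if_pos h3]; norm_num
          · rw [if_neg h3]
      · exact le_rfl
    · exact ih f' hf' y y' hy
  | gate _ hφ hf hg ih =>
    intro f' hf' y y' hy
    rcases List.mem_cons.mp hf' with rfl | hf'
    · exact hφ _ _ _ _ (ih _ hf y y' hy) (ih _ hg y y' hy)
    · exact ih f' hf' y y' hy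

/-- substitution -/
lemma prog_subst {E I : Type} {inp : Set (I → ℝ)} (σ : I → E × Bool → Bool)
    (h1 : ∀ p, (fun i => if σ i p = true then (1 : ℝ) else 0) ∈ inp)
    (h2 : ∀ c : ℝ, (fun _ => c) ∈ inp)
    {l : List ((E × Bool → Bool) → ℝ)} (h : Prog (litInputs E) l) :
    Prog inp (l.map fun f i => f (σ i)) := by
  induction h with
  | nil => exact Prog.nil
  | input _ hf ih =>
    rw [List.map_cons]
    refine Prog.input ih ?_
    rcases hf with ⟨p, rfl⟩ | ⟨c, rfl⟩
    · exact h1 p
    · exact h2 c
  | gate _ hφ hf hg ih =>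
    rw [List.map_cons]
    exact Prog.gate ih hφ (List.mem_map_of_mem hf) (List.mem_map_of_mem hg)

/-- few patterns miss a place -/
lemma bad_small {D K : ℕ} (hD : 0 < D) {n η : ℝ} (hn : 0 < n) (hη : 0 < η)
    (hK : D * Real.log (2 * n / η) ≤ K) : n * (1 - 1 / (D : ℝ)) ^ K ≤ η / 2 := by
  have hDR : (0 : ℝ) < D := by exact_mod_cast hD
  have h0 : (0 : ℝ) ≤ 1 - 1 / (D : ℝ) := by
    rw [sub_nonneg, div_le_one hDR]
    exact_mod_cast hD
  have h1 : (1 - 1 / (D : ℝ)) ≤ Real.exp (-(1 / D)) := by
    have := Real.add_one_le_exp (-(1 / (D : ℝ)))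
    linarith
  have h2 : (1 - 1 / (D : ℝ)) ^ K ≤ Real.exp (-(K / D)) := by
    calc (1 - 1 / (D : ℝ)) ^ K ≤ Real.exp (-(1 / D)) ^ K := pow_le_pow_left₀ h0 h1 K
      _ = Real.exp (-(K / D)) := by
          rw [← Real.exp_nat_mul]
          congr 1
          ring
  have h3 : Real.log (2 * n / η) ≤ K / D := by
    rw [le_div_iff₀ hDR]
    linarith
  have h4 : Real.exp (-(K / D)) ≤ Real.exp (-(Real.log (2 * n / η))) := by
    apply Real.exp_le_exp.mpr
    linarith
  have h5 : Real.exp (-(Real.log (2 * n / η))) = η / (2 * n) := by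
    rw [Real.exp_neg, Real.exp_log (by positivity), inv_div]
  calc n * (1 - 1 / (D : ℝ)) ^ K ≤ n * (η / (2 * n)) := by
        refine mul_le_mul_of_nonneg_left ((h2.trans h4).trans (le_of_eq h5)) hn.le
    _ = η / 2 := by field_simp

section

variable {I X E : Type} [Fintype E] [DecidableEq E] [Fintype X] [DecidableEq X] {K : ℕ} [NeZero K]

open Classical in
/-- the transfer -/
theorem gen (inp : Set (I → ℝ)) (enc : I → X → Bool)
    (hbit : ∀ x, (fun i => if enc i x = true then (1 : ℝ) else 0) ∈ inp)
    (hconst : ∀ c : ℝ, (fun _ => c) ∈ inp) (slot : X × Fin K ↪ E) (base : E → Bool) {D : ℕ}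
    (hD : 0 < D) {A0 η B0 : ℝ} (hη : 0 ≤ η)
    (hbad : (Fintype.card X : ℝ) * (1 - 1 / (D : ℝ)) ^ K ≤ η / 2) (No Yes : I → Prop)
    {Ω : Type} [Fintype Ω] [Nonempty Ω] (l : Ω → List ((E × Bool → Bool) → ℝ))
    (out : Ω → (E × Bool → Bool) → ℝ) (τ : Ω → ℝ) (hl : ∀ ω, Prog (litInputs E) (l ω))
    (hout : ∀ ω, out ω ∈ l ω)
    (hno : ∀ i, No i → ∀ t : X → Fin K,
      A0 + η ≤ faultyAcceptance out τ D (host slot base t (enc i)))
    (hyes : ∀ i, Yes i → ∀ t : X → Fin K, acceptance out τ (host slot base t (enc i)) ≤ B0) :
    ∃ (l' : Ω × (X → Fin K) → List (I → ℝ)) (out' : Ω × (X → Fin K) → I → ℝ),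
      (∀ ω, Prog inp (l' ω)) ∧ (∀ ω, (l' ω).length = (l ω.1).length) ∧ (∀ ω, out' ω ∈ l' ω) ∧
      (∀ i, No i → A0 * Fintype.card (Ω × (X → Fin K)) ≤
        ((univ.filter fun ω : Ω × (X → Fin K) => τ ω.1 ≤ out' ω i).card : ℝ)) ∧
      (∀ i, Yes i → ((univ.filter fun ω : Ω × (X → Fin K) => τ ω.1 ≤ out' ω i).card : ℝ) ≤
        B0 * Fintype.card (Ω × (X → Fin K))) := by
  have hDR : (0 : ℝ) < D := by exact_mod_cast hD
  have hΩ : (0 : ℝ) < Fintype.card Ω := by exact_mod_cast Fintype.card_pos
  have hprog : ∀ ω : Ω × (X → Fin K), Prog inp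
      ((l ω.1).map fun f i => f (rlit slot base ω.2 (enc i))) := by
    intro ω
    refine prog_subst (fun i => rlit slot base ω.2 (enc i)) ?_ hconst (hl ω.1)
    rintro ⟨e, b⟩
    rcases b with _ | _
    · by_cases hc : (!host slot base ω.2 (fun _ => true) e) = true
      · have h1 : (fun i => if rlit slot base ω.2 (enc i) (e, false) = true then (1 : ℝ) else 0) =
            fun _ => 1 := by
          funext i
          have h2 : rlit slot base ω.2 (enc i) (e, false) = true := hc
          rw [if_pos h2]
        rw [h1]
        exact hconst 1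
      · have h1 : (fun i => if rlit slot base ω.2 (enc i) (e, false) = true then (1 : ℝ) else 0) =
            fun _ => 0 := by
          funext i
          have h2 : ¬ rlit slot base ω.2 (enc i) (e, false) = true := hc
          rw [if_neg h2]
        rw [h1]
        exact hconst 0
    · have h0 : ∀ i, rlit slot base ω.2 (enc i) (e, true) = true ↔
          (base e = true ∨ ∃ x, enc i x = true ∧ slot (x, ω.2 x) = e) := by
        intro i
        rw [← host_true]
        unfold rlit
        rw [if_pos rfl]
      by_cases hb : base e = true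
      · have h1 : (fun i => if rlit slot base ω.2 (enc i) (e, true) = true then (1 : ℝ) else 0) =
            fun _ => 1 := by
          funext i
          rw [if_pos ((h0 i).mpr (Or.inl hb))]
        rw [h1]
        exact hconst 1
      · by_cases hx : ∃ x, slot (x, ω.2 x) = e
        · obtain ⟨x, hx⟩ := hx
          have h1 : (fun i => if rlit slot base ω.2 (enc i) (e, true) = true then (1 : ℝ) else 0) =
              fun i => if enc i x = true then 1 else 0 := by
            funext i
            have h2 : rlit slot base ω.2 (enc i) (e, true) = true ↔ enc i x = true := by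
              rw [h0]
              constructor
              · rintro (h | ⟨x', h3, h4⟩)
                · exact absurd h hb
                · have h5 := slot.injective (h4.trans hx.symm)
                  rw [← (Prod.mk.inj h5).1]
                  exact h3
              · intro h
                exact Or.inr ⟨x, h, hx⟩
            by_cases h3 : enc i x = true
            · rw [if_pos h3, if_pos (h2.mpr h3)]
            · rw [if_neg h3, if_neg (fun h => h3 (h2.mp h))]
          rw [h1]
          exact hbit x
        · have h1 : (fun i => if rlit slot base ω.2 (enc i) (e, true) = true then (1 : ℝ) else 0) =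
              fun _ => 0 := by
            funext i
            rw [if_neg]
            rw [h0]
            rintro (h | ⟨x', -, h4⟩)
            · exact hb h
            · exact hx ⟨x', h4⟩
          rw [h1]
          exact hconst 0
  have hmono : ∀ (ω : Ω) (y y' : E × Bool → Bool), y ≤ y' → τ ω ≤ out ω y →
      τ ω ≤ out ω y' := fun ω y y' hy h => h.trans (prog_mono (hl ω) _ (hout ω) y y' hy)
  refine ⟨fun ω => (l ω.1).map fun f i => f (rlit slot base ω.2 (enc i)),
    fun ω i => out ω.1 (rlit slot base ω.2 (enc i)), hprog, fun ω => List.length_map _,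
    fun ω => List.mem_map_of_mem (f := fun f i => f (rlit slot base ω.2 (enc i))) (hout ω.1),
    fun i hi => ?_, fun i hi => ?_⟩
  · have h3 := transfer_yes slot base hD
      (fun ω y => τ ω ≤ out ω y) hmono A0 η (by rw [Fintype.card_fin]; exact hbad) (enc i)
      (fun t => by
        have h4 := hno i hi t
        unfold faultyAcceptance at h4
        have h6 : (Nat.card (Ω × (E → Fin D)) : ℝ) =
            Fintype.card Ω * (D : ℝ) ^ Fintype.card E := by
          rw [Nat.card_eq_fintype_card, Fintype.card_prod, Fintype.card_fun, Fintype.card_fin]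
          push_cast
          ring
        rw [h6, le_div_iff₀ (by positivity)] at h4
        refine h4.trans (le_of_eq ?_)
        congr 1
        rw [← Nat.card_coe_set_eq]
        simp only [lit_eq]
        rfl)
    have h4 : A0 * Fintype.card (Ω × (X → Fin K)) ≤
        (A0 + η / 2) * Fintype.card (Ω × (X → Fin K)) :=
      mul_le_mul_of_nonneg_right (by linarith) (Nat.cast_nonneg _)
    refine h4.trans (h3.trans (le_of_eq ?_))
    rw [Set.ncard_eq_toFinset_card']
    congr 2
    ext ω
    simp
  · have h3 := transfer_no slot base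
      (fun ω y => τ ω ≤ out ω y) hmono B0 (enc i)
      (fun t => by
        have h4 := hyes i hi t
        unfold acceptance at h4
        rw [Nat.card_eq_fintype_card (α := Ω), div_le_iff₀ hΩ] at h4
        refine (le_of_eq ?_).trans h4
        congr 1
        rw [← Nat.card_coe_set_eq]
        simp only [lit_eq]
        rfl)
    refine le_trans (le_of_eq ?_) h3
    rw [Set.ncard_eq_toFinset_card']
    congr 2
    ext ω
    simp

end

end Pool.Agent.Q226.FLT
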