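import Pool.Agent.H630VC.Model

/-!
# Circuits on literals with faulty negations: definitions

`H630VC.Prog inp l` (`Pool/Agent/H630VC/Model.lean`): `l` is the list of the functions computed at the
gates of a circuit; each gate is an input gate, that is a function from `inp`, or it applies an
arbitrary nondecreasing real function to the values of two earlier gates.
-/

set_option autoImplicit false

namespace Pool.Agent.Q226.FLT

/-- The input gates of circuits on literals: the literal `(e, true)` stands for the bit of the
position `e` and `(e, false)` for its negation; `y` is the vector of the values of the literals.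
Constants are also available. -/
def litInputs (E : Type) : Set ((E × Bool → Bool) → ℝ) :=
  {h | (∃ p, h = fun y => if y p = true then 1 else 0) ∨ ∃ c : ℝ, h = fun _ => c}

open Classical in
/-- The values of the literals on the input `x` if the negated literals of the positions in `Z` are
stuck at `0`. -/
noncomputable def literals {E : Type} (x : E → Bool) (Z : Set E) : E × Bool → Bool :=
  fun p => if p.2 = true then x p.1 else if p.1 ∈ Z then false else !x p.1

/-- The probability that the value of the gate `out ω` is at least the threshold `τ ω` on the input
`x`, for random `ω`, without faults. -/
noncomputable def acceptance {E Ω : Type} (out : Ω → (E × Bool → Bool) → ℝ) (τ : Ω → ℝ)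
    (x : E → Bool) : ℝ :=
  (Nat.card {ω : Ω // τ ω ≤ out ω (literals x ∅)} : ℝ) / Nat.card Ω

/-- The same probability if moreover each negated literal is stuck at `0` independently with
probability `1 / D`: every position `e` gets a random number `v e` from `0` to `D - 1`, and `0` means
a fault. -/
noncomputable def faultyAcceptance {E Ω : Type} (out : Ω → (E × Bool → Bool) → ℝ) (τ : Ω → ℝ)
    (D : ℕ) (x : E → Bool) : ℝ :=
  (Nat.card {v : Ω × (E → Fin D) // τ v.1 ≤ out v.1 (literals x {e | (v.2 e : ℕ) = 0})} : ℝ) /
    Nat.card (Ω × (E → Fin D))

end Pool.Agent.Q226.FLT
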